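import Mathlib
import Pool.Agent.H354R2.Pratt

/-!
MP_70678e_nt, Q1: assertions (b) and (c) are false. The least prime with digit sum `86` is
`6999999989`, which ends neither in `99` nor in `999`.
-/

set_option autoImplicit false

namespace Pool.Agent.Results.MP_70678e_nt.LastTwoDigits

/-- `IsRho k p`: `p` is the smallest prime whose decimal digits have the sum `k`, i.e. `ρ(k)` is
defined and equal to `p`. -/
def IsRho (k p : ℕ) : Prop := IsLeast {q : ℕ | q.Prime ∧ (Nat.digits 10 q).sum = k} p

theorem sum_step (b r : ℕ) (hb : b < 10) :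
    (Nat.digits 10 (10 * r + b)).sum = b + (Nat.digits 10 r).sum := by
  rcases Nat.eq_zero_or_pos (10 * r + b) with h | h
  · have h1 : r = 0 := by omega
    have h2 : b = 0 := by omega
    subst h1; subst h2; simp
  · rw [Nat.digits_def' (by norm_num) h]
    have h1 : (10 * r + b) % 10 = b := by omega
    have h2 : (10 * r + b) / 10 = r := by omega
    rw [h1, h2, List.sum_cons]

theorem sum_le (k : ℕ) : ∀ r : ℕ, r < 10 ^ k → (Nat.digits 10 r).sum ≤ 9 * k := by
  induction k with
  | zero => intro r hr; have : r = 0 := by simpa using hr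
            subst this; simp
  | succ k ih =>
    intro r hr
    have e : 10 * (r / 10) + r % 10 = r := by omega
    rw [← e, sum_step _ _ (by omega)]
    have := ih (r / 10) (by rw [pow_succ] at hr; omega)
    omega

theorem sum_top (k : ℕ) : ∀ r : ℕ, r < 10 ^ k → (Nat.digits 10 r).sum = 9 * k → r + 1 = 10 ^ k := by
  induction k with
  | zero => intro r hr _; have : r = 0 := by simpa using hr
            subst this; simp
  | succ k ih =>
    intro r hr hs
    have e : 10 * (r / 10) + r % 10 = r := by omega
    rw [← e, sum_step _ _ (by omega)] at hs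
    have hlt : r / 10 < 10 ^ k := by rw [pow_succ] at hr; omega
    have h1 := sum_le k (r / 10) hlt
    have h2 := ih (r / 10) hlt (by omega)
    rw [pow_succ]; omega

theorem sum_top_pred (k : ℕ) : ∀ r : ℕ, r < 10 ^ k → (Nat.digits 10 r).sum + 1 = 9 * k →
    ∃ i < k, r + 1 + 10 ^ i = 10 ^ k := by
  induction k with
  | zero => intro r hr h; omega
  | succ k ih =>
    intro r hr hs
    have e : 10 * (r / 10) + r % 10 = r := by omega
    rw [← e, sum_step _ _ (by omega)] at hs
    have hlt : r / 10 < 10 ^ k := by rw [pow_succ] at hr; omega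
    have h1 := sum_le k (r / 10) hlt
    by_cases h9 : r % 10 = 9
    · obtain ⟨i, hi, h2⟩ := ih (r / 10) hlt (by omega)
      refine ⟨i + 1, by omega, ?_⟩
      rw [pow_succ, pow_succ]; omega
    · have h2 := sum_top k (r / 10) hlt (by omega)
      refine ⟨0, by omega, ?_⟩
      rw [pow_succ, pow_zero]; omega

theorem sum_split (k : ℕ) : ∀ d r : ℕ, r < 10 ^ k →
    (Nat.digits 10 (d * 10 ^ k + r)).sum = (Nat.digits 10 d).sum + (Nat.digits 10 r).sum := by
  induction k with
  | zero => intro d r hr; have : r = 0 := by simpa using hr
            subst this; simp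
  | succ k ih =>
    intro d r hr
    have e : d * 10 ^ (k + 1) + r = 10 * (d * 10 ^ k + r / 10) + r % 10 := by
      have e0 : d * 10 ^ (k + 1) = 10 * (d * 10 ^ k) := by ring
      rw [e0]; omega
    have hlt : r / 10 < 10 ^ k := by rw [pow_succ] at hr; omega
    have e2 : 10 * (r / 10) + r % 10 = r := by omega
    rw [e, sum_step _ _ (by omega), ih d (r / 10) hlt]
    conv_rhs => rw [← e2, sum_step _ _ (by omega)]
    omega

theorem prime_p : Nat.Prime 6999999989 :=
  Pool.Agent.H354R2.pratt 6999999989 2 34 [2, 2, 19, 373, 246931]
    (by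
      intro q hq
      simp only [List.mem_cons, List.not_mem_nil, or_false] at hq
      rcases hq with h | h | h | h | h <;> subst h <;> norm_num)
    (by decide +kernel)

theorem isRho_86 : IsRho 86 6999999989 := by
  constructor
  · exact ⟨prime_p, by norm_num⟩
  · rintro q ⟨hq, hs⟩
    by_contra hlt
    rw [not_le] at hlt
    have hd : q = (q / 10 ^ 9) * 10 ^ 9 + q % 10 ^ 9 := by omega
    have hr : q % 10 ^ 9 < 10 ^ 9 := Nat.mod_lt _ (by norm_num)
    have h6 : q / 10 ^ 9 < 7 := by omega
    rw [hd, sum_split 9 _ _ hr] at hs
    have hle := sum_le 9 _ hr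
    generalize q % 10 ^ 9 = r at *
    generalize q / 10 ^ 9 = d at *
    interval_cases d
    · simp at hs; omega
    · simp at hs; omega
    · simp at hs; omega
    · simp at hs; omega
    · simp at hs; omega
    · have h1 : (Nat.digits 10 r).sum = 9 * 9 := by simp at hs; omega
      have h2 := sum_top 9 r hr h1
      have h3 : q = 5999999999 := by omega
      rw [h3] at hq; norm_num at hq
    · have h1 : (Nat.digits 10 r).sum + 1 = 9 * 9 := by simp at hs; omega
      obtain ⟨i, hi, h2⟩ := sum_top_pred 9 r hr h1
      interval_cases i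
      · have h3 : q = 6999999998 := by omega
        rw [h3] at hq; norm_num at hq
      · omega
      · have h3 : q = 6999999899 := by omega
        rw [h3] at hq; norm_num at hq
      · have h3 : q = 6999998999 := by omega
        rw [h3] at hq; norm_num at hq
      · have h3 : q = 6999989999 := by omega
        rw [h3] at hq; norm_num at hq
      · have h3 : q = 6999899999 := by omega
        rw [h3] at hq; norm_num at hq
      · have h3 : q = 6998999999 := by omega
        rw [h3] at hq; norm_num at hq
      · have h3 : q = 6989999999 := by omega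
        rw [h3] at hq; norm_num at hq
      · have h3 : q = 6899999999 := by omega
        rw [h3] at hq; norm_num at hq

/-- Assertions (b) and (c) are both false: it is not true that `ρ(k) ≡ 99 (mod 100)` for every
`k > 38` for which `ρ(k)` is defined, and it is not true that `ρ(k) ≡ 999 (mod 1000)` for every
`k > 59` for which `ρ(k)` is defined. -/
theorem result :
    (¬ ∀ k p : ℕ, 38 < k → IsRho k p → p % 100 = 99) ∧
    (¬ ∀ k p : ℕ, 59 < k → IsRho k p → p % 1000 = 999) :=
  ⟨fun h => absurd (h 86 _ (by norm_num) isRho_86) (by norm_num),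
    fun h => absurd (h 86 _ (by norm_num) isRho_86) (by norm_num)⟩

end Pool.Agent.Results.MP_70678e_nt.LastTwoDigits
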